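import Mathlib

namespace Pool.Agent.Results.MP_fc1ccb_an.Sixty

open Complex Real

/-- `z 0` is the starting point `z_{-1}` and `z (n+1)` is `z_n`; every step takes the sign giving
the strictly smaller modulus (so no tie ever occurs). -/
def IsRun (α : ℝ) (z : ℕ → ℂ) (ε : ℕ → ℤ) : Prop :=
  ∀ n : ℕ, (ε n = 1 ∨ ε n = -1) ∧ z (n + 1) = z n + ε n * exp (2 * π * I * α * n) ∧
    ‖z n + ε n * exp (2 * π * I * α * n)‖ < ‖z n - ε n * exp (2 * π * I * α * n)‖

/-- the eventual periods of a sequence -/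
def Periods (ε : ℕ → ℤ) : Set ℕ := {p | 1 ≤ p ∧ ∃ N, ∀ n, N ≤ n → ε (n + p) = ε n}

def word : List ℤ := [1, -1, 1, -1, 1, 1, -1, 1, -1, 1, -1, 1, 1, -1, 1, -1, 1, -1, 1, 1, -1, 1,
  -1, 1, -1, 1, -1, 1, -1, 1, -1, 1, -1, 1, -1, -1, 1, -1, 1, -1, 1, -1, -1, 1, -1, 1, -1, 1, -1,
  -1, 1, -1, 1, -1, 1, -1, 1, -1, 1, -1]

def sg (n : ℕ) : ℤ := word.getD (n % 60) 0

def o : ℕ → ℚ × ℚ
  | 0 => (-6208227684719183709018093697006 / 17942353800421699429419244034637,
      -6940481783075042666891729768158 / 17942353800421699429419244034637)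
  | n + 1 => (((o n).1 + sg n) * (117 / 125) + (o n).2 * (44 / 125),
      (o n).2 * (117 / 125) - ((o n).1 + sg n) * (44 / 125))

lemma sg_add (n m : ℕ) : sg (n + 60 * m) = sg n := by simp [sg]

lemma o60 : o 60 = o 0 := by decide +kernel

lemma fin_ok : ∀ n < 60, (sg n = 1 ∨ sg n = -1) ∧ sg n * (o n).1 < 0 := by decide +kernel

lemma aper : ∀ p < 60, 1 ≤ p → ∃ k < 60, sg (k + p) ≠ sg k := by decide +kernel

lemma o_add (n : ℕ) : o (n + 60) = o n := by
  induction n with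
  | zero => exact o60
  | succ n ih =>
    rw [Nat.add_right_comm, o, ih, o, show sg (n + 60) = sg n from sg_add n 1]

lemma ok (n : ℕ) : (sg n = 1 ∨ sg n = -1) ∧ sg n * (o n).1 < 0 := by
  induction n using Nat.strong_induction_on with
  | _ n ih =>
    rcases lt_or_ge n 60 with h | h
    · exact fin_ok n h
    · obtain ⟨m, rfl⟩ := Nat.exists_eq_add_of_le' h
      rw [o_add, show sg (m + 60) = sg m from sg_add m 1]
      exact ih m (by omega)

theorem result : ∃ (α : ℝ) (z : ℕ → ℂ) (ε : ℕ → ℤ), Irrational α ∧ 0 < α ∧ IsRun α z ε ∧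
    ∃ p, IsLeast (Periods ε) p ∧ 4 ∣ p := by
  have hc : Real.cos (arccos (117 / 125)) = 117 / 125 := cos_arccos (by norm_num) (by norm_num)
  have hs : Real.sin (arccos (117 / 125)) = 44 / 125 := by
    rw [sin_arccos, show (1 : ℝ) - (117 / 125) ^ 2 = (44 / 125) ^ 2 by norm_num,
      sqrt_sq (by norm_num)]
  have hp : 0 < arccos (117 / 125) := arccos_pos.2 (by norm_num)
  generalize arccos (117 / 125) = θ at hc hs hp
  have hE : exp (θ * I) = ⟨117 / 125, 44 / 125⟩ := by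
    apply Complex.ext <;> simp [exp_ofReal_mul_I_re, exp_ofReal_mul_I_im, hc, hs]
  have hE' : ∀ n : ℕ, exp (2 * π * I * (θ / (2 * π) : ℝ) * n) = exp (θ * I) ^ n := by
    intro n
    rw [← Complex.exp_nat_mul]
    congr 1
    have : (π : ℂ) ≠ 0 := by exact_mod_cast pi_ne_zero
    push_cast
    field_simp
  refine ⟨θ / (2 * π), fun n => (⟨(o n).1, (o n).2⟩ : ℂ) * exp (θ * I) ^ n, sg, ?_, by positivity,
    fun n => ⟨(ok n).1, ?_, ?_⟩, 60, ⟨⟨by norm_num, 0, fun n _ => sg_add n 1⟩, ?_⟩, by norm_num⟩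
  · rintro ⟨q, hq⟩
    have := niven (θ := θ) ⟨2 * q, by push_cast; rw [hq]; field_simp⟩ ⟨117 / 125, by rw [hc]; norm_num⟩
    rw [hc] at this
    norm_num at this
  · beta_reduce
    rw [hE', pow_succ', ← mul_assoc, ← add_mul]
    congr 1
    rw [hE]
    apply Complex.ext <;> simp [o] <;> ring
  · beta_reduce
    rw [hE', ← add_mul, ← sub_mul, norm_mul, norm_mul, norm_pow, norm_exp_ofReal_mul_I, one_pow,
      mul_one, mul_one, ← sq_lt_sq₀ (norm_nonneg _) (norm_nonneg _), Complex.sq_norm,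
      Complex.sq_norm]
    have h : ((sg n : ℝ) * (o n).1) < 0 := by exact_mod_cast (ok n).2
    simp [normSq_apply]
    nlinarith
  · rintro p ⟨p1, N, hN⟩
    by_contra hlt
    obtain ⟨k, -, hk⟩ := aper p (not_le.1 hlt) p1
    have := hN (k + 60 * N) (by omega)
    rw [sg_add, Nat.add_right_comm, sg_add] at this
    exact hk this

end Pool.Agent.Results.MP_fc1ccb_an.Sixty
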